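import Pool.Agent.Lib.MP_1a91b9_nuT.P.Unit
import Pool.Agent.Lib.MP_1a91b9_nuT.Rq.Fin
import Pool.Agent.Lib.MP_1a91b9_nuT.CT.Pd1

/-!
# The periods of the curve, of its twists over `K`, and of isomorphic curves

Let `x ∈ K`, `x ≠ 0`, with `a = A x⁴`, `b = B x⁶` rational integers. The curve `y² = x³ + a x + b` has
the period lattice `Om / x` times the lattice of `𝓞 K`. At a complex place the period is divided by
`‖x‖²`, a rational number. The real periods of the two curves are `Om y`, `(Om / x) y'` with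
`y, y' ∈ K`; their quotient is real and in `K`, so it is rational.
-/

set_option autoImplicit false

namespace Pool.Agent.Lib.MP_1a91b9_nuX.RG

variable [Pool.Agent.Lib.MP_1a91b9_nuT.CD]

open NumberField WeierstrassCurve Pool.Agent.Lib.MP_1a91b9_nuT
  Pool.Agent.Lib.MP_1a91b9_nuT.Per Pool.Agent.Lib.MP_1a91b9_nuT.CT

section scale

variable {a b : ℤ} {x : K}

theorem sc_CR (hx0 : x ≠ 0) (ha : (a : ℂ) = (CD.A : ℂ) * embK x ^ 4)
    (hb : (b : ℂ) = (CD.B : ℂ) * embK x ^ 6) :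
    CR (Om / embK x) (((a : ℤ) : ℝ) : ℂ) (((b : ℤ) : ℝ) : ℂ) := by
  have h0 : embK x ≠ 0 := (map_ne_zero_iff _ embK.injective).2 hx0
  rw [Complex.ofReal_intCast, Complex.ofReal_intCast, ha, hb]
  exact CR.twist CR.base h0

/-- the quotient of the real periods -/
theorem perR_sc (hx0 : x ≠ 0) (ha : (a : ℂ) = (CD.A : ℂ) * embK x ^ 4)
    (hb : (b : ℂ) = (CD.B : ℂ) * embK x ^ 6) : ∃ q : ℚ, q ≠ 0 ∧
    perR (cv (a : ℝ) (b : ℝ)) = (q : ℝ) * perR (E ℝ) := by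
  have hC := sc_CR hx0 ha hb
  obtain ⟨hp1, y1, hy1, e1⟩ := perR_E
  obtain ⟨hp2, k, y2, hk, hy2, e2, -⟩ := perR_cv hC
  obtain ⟨P1, hP1⟩ : ∃ P : ℝ, P = perR (E ℝ) := ⟨_, rfl⟩
  obtain ⟨P2, hP2⟩ : ∃ P : ℝ, P = perR (cv (a : ℝ) (b : ℝ)) := ⟨_, rfl⟩
  rw [← hP1] at hp1 e1 ⊢
  rw [← hP2] at hp2 e2 ⊢
  have hOm := Om_ne
  have hy1' : embK (y1 : K) ≠ 0 := by
    intro h0
    rw [h0, mul_zero, Complex.ofReal_eq_zero] at e1
    exact hp1.ne' e1
  have hxe : embK x ≠ 0 := (map_ne_zero_iff _ embK.injective).2 hx0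
  obtain ⟨q, hq⟩ := Rq.real_K (x := (k : K) * (y2 : K) / (x * (y1 : K))) (r := P2 / P1) (by
    rw [map_div₀, map_mul, map_mul, map_natCast, Complex.ofReal_div, e1, e2]
    field_simp)
  have hq' : P2 = (q : ℝ) * P1 := by
    rw [hq, div_mul_cancel₀ _ hp1.ne']
  refine ⟨q, ?_, hq'⟩
  intro h0
  rw [h0, Rat.cast_zero, zero_mul] at hq'
  exact hp2.ne' hq'

/-- The periods of the curve and of its twist are the same up to a rational number. -/
theorem prod_sc (hx0 : x ≠ 0) (ha : (a : ℂ) = (CD.A : ℂ) * embK x ^ 4)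
    (hb : (b : ℂ) = (CD.B : ℂ) * embK x ^ 6) (N : Type*) [Field N] [NumberField N] :
    ∃ q : ℚ, q ≠ 0 ∧ ∏ v : InfinitePlace N, perAt (cv (a : N) (b : N)) v =
      (q : ℝ) * ∏ v : InfinitePlace N, perAt (E N) v := by
  have hC := sc_CR hx0 ha hb
  obtain ⟨q, hq0, hq⟩ := perR_sc hx0 ha hb
  obtain ⟨r, hr⟩ := Rq.normSq_rat x
  have hxe : embK x ≠ 0 := (map_ne_zero_iff _ embK.injective).2 hx0
  have hr0' : (r : ℝ) ≠ 0 := by
    rw [hr]
    exact pow_ne_zero 2 (norm_ne_zero_iff.2 hxe)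
  have hr0 : r ≠ 0 := by exact_mod_cast hr0'
  have h1 : ‖Om / embK x‖ ^ 2 = ‖Om‖ ^ 2 / (r : ℝ) := by
    rw [norm_div, div_pow, hr]
  refine ⟨q ^ InfinitePlace.nrRealPlaces N / r ^ InfinitePlace.nrComplexPlaces N,
    div_ne_zero (pow_ne_zero _ hq0) (pow_ne_zero _ hr0), ?_⟩
  rw [prod_cv hC, prod_perAt, hq, h1, mul_pow, ← mul_div_assoc, div_pow, Rat.cast_div, Rat.cast_pow,
    Rat.cast_pow]
  have h2 : (r : ℝ) ^ InfinitePlace.nrComplexPlaces N ≠ 0 := pow_ne_zero _ hr0'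
  field_simp

end scale

variable {N : Type*} [Field N] [NumberField N]

/-- The products of the periods of isomorphic curves. -/
theorem prod_iso {W W' : WeierstrassCurve N} (C : VariableChange N) (hC : C • W = W') :
    ∏ v : InfinitePlace N, perAt W' v =
      |(Algebra.norm ℚ (C.u : N) : ℝ)| * ∏ v : InfinitePlace N, perAt W v := by
  rw [← hC, prod_vc]

/-- The product of the periods of `E` as a rational multiple of the product of the periods of a curve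
isomorphic to a curve with the same invariant. -/
theorem prod_ratio {a b : ℤ} {x : K} (hx0 : x ≠ 0) (ha : (a : ℂ) = (CD.A : ℂ) * embK x ^ 4)
    (hb : (b : ℂ) = (CD.B : ℂ) * embK x ^ 6) {W : WeierstrassCurve N} {C : VariableChange N}
    (hC : C • W = cv (a : N) (b : N)) :
    ∃ q : ℚ, q ≠ 0 ∧ ∏ v : InfinitePlace N, perAt (E N) v =
      (q : ℝ) * ∏ v : InfinitePlace N, perAt W v := by
  have hu : Algebra.norm ℚ (C.u : N) ≠ 0 := Algebra.norm_ne_zero_iff.2 C.u.ne_zero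
  have hua : |Algebra.norm ℚ (C.u : N)| ≠ 0 := abs_ne_zero.2 hu
  obtain ⟨q, hq0, hq⟩ := prod_sc hx0 ha hb N
  refine ⟨q⁻¹ * |Algebra.norm ℚ (C.u : N)|, mul_ne_zero (inv_ne_zero hq0) hua, ?_⟩
  have hq0' : (q : ℝ) ≠ 0 := by exact_mod_cast hq0
  rw [prod_iso C hC] at hq
  have h2 : ∏ v : InfinitePlace N, perAt (E N) v = (q : ℝ)⁻¹ * ((q : ℝ) *
      ∏ v : InfinitePlace N, perAt (E N) v) := by
    rw [← mul_assoc, inv_mul_cancel₀ hq0', one_mul]
  rw [h2, ← hq]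
  push_cast
  ring

/-- the discriminant of `K` is a square in `K` -/
theorem exists_sqrt : ∃ x : K, x ≠ 0 ∧ embK x ^ 2 = ((CD.tr ^ 2 - 4 * CD.nm : ℤ) : ℂ) := by
  obtain ⟨x, hx⟩ := exists_I_sd
  have h0 : embK x ≠ 0 := by
    rw [hx]
    exact mul_ne_zero Complex.I_ne_zero sdC_ne
  refine ⟨x, fun h => h0 (by rw [h, map_zero]), ?_⟩
  rw [hx, mul_pow, Complex.I_sq, sdC_sq]
  push_cast
  ring

/-- if `B = 0` then `K` contains the square root of `-1` -/
theorem exists_I (hB : CD.B = 0) : ∃ x : K, embK x = Complex.I := by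
  have h1 := stable_unit CR.base (t := Complex.I) Complex.I_ne_zero
    (by rw [Complex.I_pow_four, mul_one])
    (by
      change ((CD.B : ℤ) : ℂ) * Om ^ 6 * _ = ((CD.B : ℤ) : ℂ) * Om ^ 6
      rw [hB, Int.cast_zero, zero_mul, zero_mul]) 1 S3.one_mem
  rw [mul_one] at h1
  obtain ⟨a, ha⟩ := S3.mem_PP_iff.1 h1
  exact ⟨(a : K), ha⟩

/-- the scaling factor of the second class of curves over the fields which do not contain `K` -/
theorem exists_lam {a b : ℤ}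
    (h : (CD.B ≠ 0 ∧ a = CD.A * (CD.tr ^ 2 - 4 * CD.nm) ^ 2 ∧
      b = CD.B * (CD.tr ^ 2 - 4 * CD.nm) ^ 3) ∨ (CD.B = 0 ∧ a = -4 * CD.A ∧ b = 0)) :
    ∃ x : K, x ≠ 0 ∧ (a : ℂ) = (CD.A : ℂ) * embK x ^ 4 ∧ (b : ℂ) = (CD.B : ℂ) * embK x ^ 6 := by
  rcases h with ⟨-, rfl, rfl⟩ | ⟨hB, rfl, rfl⟩
  · obtain ⟨x, hx0, hx⟩ := exists_sqrt
    have e4 : embK x ^ 4 = (embK x ^ 2) ^ 2 := by ring
    have e6 : embK x ^ 6 = (embK x ^ 2) ^ 3 := by ring
    refine ⟨x, hx0, ?_, ?_⟩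
    · rw [e4, hx]
      push_cast
      ring
    · rw [e6, hx]
      push_cast
      ring
  · obtain ⟨i, hi⟩ := exists_I hB
    have e : embK (1 + i) = 1 + Complex.I := by rw [map_add, map_one, hi]
    have h2 : (1 + Complex.I) ^ 4 = -4 := by
      have h3 : (1 + Complex.I) ^ 4 = 1 + 4 * Complex.I + 6 * Complex.I ^ 2 +
          4 * (Complex.I * Complex.I ^ 2) + (Complex.I ^ 2) ^ 2 := by ring
      rw [h3, Complex.I_sq]
      ring
    refine ⟨1 + i, ?_, ?_, ?_⟩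
    · intro h0
      rw [h0, map_zero] at e
      rw [← e] at h2
      norm_num at h2
    · rw [e, h2]
      push_cast
      ring
    · rw [hB]
      push_cast
      ring

end Pool.Agent.Lib.MP_1a91b9_nuX.RG
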