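import Pool.Agent.Lib.MP_1a91b9_nuX.RG.Lv
import Pool.Agent.Lib.MP_1a91b9_nuX.RG.Per
import Pool.Agent.Lib.MP_1a91b9_nuX.LF.LfC
import Pool.Agent.Lib.MP_1a91b9_nuT.Rq.D1
import Pool.Agent.Lib.MP_1a91b9_nuT.Rq.D2
import Pool.Agent.Lib.MP_1a91b9_nuT.Rq.Ar
import Pool.Agent.Lib.MP_1a91b9_nuT.Rq.Fin
import Pool.Agent.Lib.MP_1a91b9_nuT.P.Ratio

/-!
# The quotient `L(W/N, 1) √|disc N| / ∏ Ω_v` is rational

`rat_K`: `g s = conj (L (conj s)) * L s`, `g 1 = ‖L 1‖²`, `L 1 = Om ^ n * dt * x`, `x ∈ K` (RG/Lv), and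
`sd ^ n * ‖dt‖² = q √|disc F|` (Rq/D1); the product of the periods is `(sd ‖Om‖²) ^ n`.
`rat_N`: `L 1` is real (P/Ratio); `dt² = q² disc N` (Rq/D2), Rq/Ar.
-/

set_option autoImplicit false

namespace Pool.Agent.Lib.MP_1a91b9_nuX.RG

variable [Pool.Agent.Lib.MP_1a91b9_nuT.CD]

open NumberField IsDedekindDomain WeierstrassCurve Pool.Agent.Lib.MP_1a91b9_nt
  Pool.Agent.Lib.MP_1a91b9_nuT Pool.Agent.Lib.MP_1a91b9_nuX.LF
open Pool.Agent.Lib.MP_1a91b9_nuT.Per (perAt perR perR_E prod_perAt prod_perAt_pos cv)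
open Pool.Agent.Lib.MP_1a91b9_nuT.S4 (Lf)
open Pool.Agent.Lib.MP_1a91b9_nuX.AN (psC psbC)

universe u

/-- The arithmetic of the case of `N`. -/
private theorem Fin_arith {N : Type u} [Field N] [NumberField N] (κ : K) (dt : ℂ) (q : ℚ)
    (hq : dt ^ 2 = ((q ^ 2 * (discr N : ℚ) : ℚ) : ℂ)) (R : ℝ)
    (h : Om ^ Module.finrank ℚ N * dt * embK κ * ((Real.sqrt |(discr N : ℝ)| : ℝ) : ℂ) =
      (R : ℂ) * ((∏ v : InfinitePlace N, perAt (E N) v : ℝ) : ℂ)) :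
    ∃ r : ℚ, (r : ℝ) = R := by
  have hrk := InfinitePlace.card_add_two_mul_card_eq_rank N
  have hsgn : (discr N : ℝ) = (-1) ^ InfinitePlace.nrComplexPlaces N * |(discr N : ℝ)| := by
    have h1 := sign_discr (K := N)
    have h2 := Int.sign_mul_abs (discr N)
    rw [h1] at h2
    have h3 : (((-1) ^ InfinitePlace.nrComplexPlaces N * |discr N| : ℤ) : ℝ) =
        ((discr N : ℤ) : ℝ) := by rw [h2]
    push_cast at h3
    exact h3.symm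
  obtain ⟨hP, y, -, hy⟩ := perR_E
  rw [← hrk, prod_perAt] at h
  exact Rq.ar_real _ _ κ dt q (discr N) hsgn hq hP.ne' hy R h

variable [HC]

theorem rat_K0 (hg : ∀ M : ℕ, 0 < M → (HC.f : 𝓞 K) ∣ (M : 𝓞 K) →
      ((CD.bad : ℤ) : 𝓞 K) ∣ (M : 𝓞 K) → GalPs M)
    {F : Type u} [Field F] [NumberField F] [Algebra K F] (W : WeierstrassCurve F)
    {q2 : ℚ} (hq2 : ∏ v : InfinitePlace F, perAt (E F) v =
      (q2 : ℝ) * ∏ v : InfinitePlace F, perAt W v)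
    (hW : ∀ s : ℂ, 2 < s.re → W.LSeries s = Lf (psC F) s * Lf (psbC F) s) :
    ∃ (g : ℂ → ℂ) (q : ℚ), Differentiable ℂ g ∧ (∀ s : ℂ, 2 < s.re → g s = W.LSeries s) ∧
      g 1 * (Real.sqrt |(discr F : ℝ)| : ℝ) =
        (q : ℂ) * (∏ v : InfinitePlace F, perAt W v : ℝ) := by
  have hex := nf_exists (F := F)
  obtain ⟨m, hm⟩ : ∃ m, Module.finrank K F = m + 1 :=
    Nat.exists_eq_succ_of_ne_zero Module.finrank_pos.ne'
  rw [hm] at hex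
  obtain ⟨σ, hσ⟩ := hex
  set bb : Module.Basis (Fin (m + 1)) K F := Module.finBasisOfFinrankEq K F hm
  obtain ⟨L, κ, hL, hL1, hLv⟩ := lval hg σ hσ bb
  obtain ⟨q0, hq0, hdisc⟩ := Rq.disc_K σ hσ bb
  obtain ⟨q1, hq1⟩ := Rq.normSq_rat κ
  set g : ℂ → ℂ := fun s => (starRingEnd ℂ) (L ((starRingEnd ℂ) s)) * L s with hgdef
  have hgs : ∀ s : ℂ, 2 < s.re → g s = W.LSeries s := by
    intro s hs
    change (starRingEnd ℂ) (L ((starRingEnd ℂ) s)) * L s = _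
    rw [hW s hs, hL1 s hs, hL1 _ (by rw [Complex.conj_re]; exact hs), ← LF.Lf_conj]
  have hg1 : g 1 = ((‖L 1‖ ^ 2 : ℝ) : ℂ) := by
    change (starRingEnd ℂ) (L ((starRingEnd ℂ) 1)) * L 1 = _
    rw [map_one, mul_comm, Complex.mul_conj, Complex.normSq_eq_norm_sq]
  have hcx : InfinitePlace.nrComplexPlaces F = m + 1 ∧ InfinitePlace.nrRealPlaces F = 0 := by
    have h2 := InfinitePlace.card_add_two_mul_card_eq_rank F
    have h3 : IsTotallyComplex F := S4.totallyComplex_of_K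
    have h4 : InfinitePlace.nrRealPlaces F = 0 := IsTotallyComplex.nrRealPlaces_eq_zero F
    have h5 : Module.finrank ℚ F = 2 * (m + 1) := by
      rw [← Module.finrank_mul_finrank ℚ K F, finrank_K, hm]
    omega
  have hprod : ∏ v : InfinitePlace F, perAt (E F) v = (sd * ‖Om‖ ^ 2) ^ (m + 1) := by
    rw [prod_perAt, hcx.1, hcx.2, pow_zero, one_mul]
  obtain ⟨D', hD'⟩ : ∃ z : ℤ, z = |discr F| := ⟨_, rfl⟩
  refine ⟨g, q1 * q0 * (D' : ℚ) / ((4 * CD.nm - CD.tr ^ 2 : ℤ) : ℚ) ^ (m + 1) * q2,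
    (S4.differentiable_conj_conj hL).mul hL, hgs, ?_⟩
  have key : ‖L 1‖ ^ 2 * Real.sqrt |(discr F : ℝ)| =
      (q1 * q0 * (D' : ℝ) / ((4 * CD.nm - CD.tr ^ 2 : ℤ) : ℝ) ^ (m + 1)) *
        (sd * ‖Om‖ ^ 2) ^ (m + 1) := by
    rw [hD', Int.cast_abs, ← sd_sq]
    have hLn : ‖L 1‖ ^ 2 = (‖Om‖ ^ 2) ^ (m + 1) * ‖Rq.dt σ bb‖ ^ 2 * q1 := by
      rw [hLv, norm_mul, norm_mul, norm_pow, hq1]
      ring
    rw [hLn, mul_pow]
    have h3 : sd ^ (m + 1) ≠ 0 := (pow_pos sd_pos _).ne'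
    obtain ⟨r, hr⟩ : ∃ r : ℝ, r = Real.sqrt |(discr F : ℝ)| := ⟨_, rfl⟩
    obtain ⟨t, ht⟩ : ∃ t : ℝ, t = (‖Om‖ ^ 2) ^ (m + 1) := ⟨_, rfl⟩
    obtain ⟨w, hw⟩ : ∃ w : ℝ, w = sd ^ (m + 1) := ⟨_, rfl⟩
    have hw2 : (sd ^ 2) ^ (m + 1) = w * w := by
      rw [hw]
      ring
    have hD2 : |(discr F : ℝ)| = r * r := by
      rw [hr]
      exact (Real.mul_self_sqrt (abs_nonneg _)).symm
    rw [← hw] at h3 hdisc
    rw [← hr] at hdisc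
    rw [← hr, ← ht, ← hw, hw2, hD2]
    field_simp
    linear_combination (t * q1 * r) * hdisc
  have hfin : ‖L 1‖ ^ 2 * Real.sqrt |(discr F : ℝ)| =
      (q1 * q0 * (D' : ℝ) / ((4 * CD.nm - CD.tr ^ 2 : ℤ) : ℝ) ^ (m + 1) * q2) *
        ∏ v : InfinitePlace F, perAt W v := by
    rw [key, ← hprod, hq2]
    ring
  rw [hg1, ← Complex.ofReal_mul, hfin]
  push_cast
  ring

theorem rat_N0 (hg : ∀ M : ℕ, 0 < M → (HC.f : 𝓞 K) ∣ (M : 𝓞 K) →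
      ((CD.bad : ℤ) : 𝓞 K) ∣ (M : 𝓞 K) → GalPs M)
    {N F : Type u} [Field N] [NumberField N] [Field F] [NumberField F]
    [Algebra N F] [Algebra K F] (hL : Module.finrank N F = 2)
    (hn : ∀ x : N, algebraMap N F x ≠ algebraMap K F om) (W : WeierstrassCurve N)
    {q2 : ℚ} (hq2 : ∏ v : InfinitePlace N, perAt (E N) v =
      (q2 : ℝ) * ∏ v : InfinitePlace N, perAt W v)
    (hW : ∀ s : ℂ, 2 < s.re → W.LSeries s = Lf (psbC F) s) :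
    ∃ (g : ℂ → ℂ) (q : ℚ), Differentiable ℂ g ∧ (∀ s : ℂ, 2 < s.re → g s = W.LSeries s) ∧
      g 1 * (Real.sqrt |(discr N : ℝ)| : ℝ) =
        (q : ℂ) * (∏ v : InfinitePlace N, perAt W v : ℝ) := by
  have hex := nf_exists (F := F)
  obtain ⟨m, hm⟩ : ∃ m, Module.finrank K F = m + 1 :=
    Nat.exists_eq_succ_of_ne_zero Module.finrank_pos.ne'
  rw [hm] at hex
  obtain ⟨σ, hσ⟩ := hex
  obtain ⟨bb, q, hq0, hdq⟩ := Rq.disc_N hL hn σ hσ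
  obtain ⟨L, κ, hL', hL1, hLv⟩ := lval hg σ hσ bb
  have hfrN : Module.finrank ℚ N = m + 1 := by
    have h1 := Module.finrank_mul_finrank ℚ N F
    have h2 := Module.finrank_mul_finrank ℚ K F
    rw [hL] at h1
    rw [finrank_K, hm] at h2
    omega
  have hgs : ∀ s : ℂ, 2 < s.re → L s = W.LSeries s := fun s hs => by rw [hL1 s hs, hW s hs]
  have hre := Per.value_real hL' hgs
  obtain ⟨P0, hP0⟩ : ∃ P0 : ℝ, P0 = ∏ v : InfinitePlace N, perAt (E N) v := ⟨_, rfl⟩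
  have hP0' : P0 ≠ 0 := by
    rw [hP0]
    exact (prod_perAt_pos N).ne'
  obtain ⟨R, hR⟩ : ∃ R : ℝ, R = (L 1).re * Real.sqrt |(discr N : ℝ)| / P0 := ⟨_, rfl⟩
  have hRP : L 1 * ((Real.sqrt |(discr N : ℝ)| : ℝ) : ℂ) = (R : ℂ) * ((P0 : ℝ) : ℂ) := by
    rw [← Complex.ofReal_mul, hR, div_mul_cancel₀ _ hP0']
    push_cast
    rw [← hre]
  obtain ⟨r, hr⟩ := Fin_arith (N := N) κ (Rq.dt σ bb) q hdq R (by
    rw [← hP0, ← hRP, hLv, hfrN])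
  refine ⟨L, r * q2, hL', hgs, ?_⟩
  rw [hRP, hP0, hq2, ← hr]
  push_cast
  ring

end Pool.Agent.Lib.MP_1a91b9_nuX.RG
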