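import Pool.Agent.Lib.MP_1a91b9_nuT.Rg.De
import Pool.Agent.Lib.MP_1a91b9_nuT.Rg.Fx
import Pool.Agent.Lib.MP_1a91b9_nuT.Rq.Va
import Pool.Agent.Lib.MP_1a91b9_nuT.D6.Main
import Pool.Agent.Lib.MP_1a91b9_nuT.S4.Unfold
import Pool.Agent.Lib.MP_1a91b9_nuX.AN.Psi

/-!
# Rationality of the L-values of `y² = x³ + D`: definitions
-/

set_option autoImplicit false

namespace Pool.Agent.Lib.MP_1a91b9_nuX.RG

variable [Pool.Agent.Lib.MP_1a91b9_nuT.CD]

open NumberField IsDedekindDomain Pool.Agent.Lib.MP_1a91b9_nuT Pool.Agent.Lib.MP_1a91b9_nuT.S4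
open Pool.Agent.Lib.MP_1a91b9_nuX.AN (psbC)
open Pool.Agent.Lib.MP_1a91b9_nuT.Rq (Fix Rel)

universe u

/-- The automorphism `τ` of `ℂ` acts on the `M`-torsion points of `y² + y = x³` as `χ`. -/
def RlM (τ : ℂ ≃+* ℂ) (M : ℕ) (χ : 𝓞 K) : Prop :=
  ∀ a : 𝓞 K, Rel τ (embK (a : K) / M) (embK (χ : K) * embK (a : K) / M)

/-- The action of the automorphism `τ` on the normalised values of `E₁`, given modulo `f` by `χ₀`. -/
def Hact (τ : ℂ ≃+* ℂ) (f χ₀ : 𝓞 K) : Prop :=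
  ∀ M : ℕ, 0 < M → ∃ χ : 𝓞 K, f ∣ χ - χ₀ ∧ IsCoprime χ (M : 𝓞 K) ∧
    ∀ a : 𝓞 K, τ (E1 (embK (a : K) / M) / Om) = E1 (embK (χ : K) * embK (a : K) / M) / Om

/-- The classes `t i` modulo `m b i` give a complete system of the ray classes modulo `m`: the ideals
prime to `m` correspond to the pairs of an index `i` and an element of a system of representatives
of `t i + m b i` modulo the units congruent to `1` modulo `m`. -/
structure CSys {F : Type u} [Field F] [NumberField F] (m : Ideal (𝓞 F)) {ι : Type u}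
    (b : ι → Ideal (𝓞 F)) (t : ι → 𝓞 F) : Prop where
  ne : ∀ i, b i ≠ 0
  cop : ∀ i, IsCoprime (b i) m
  mem : ∀ i, t i ∈ b i
  notMem : ∀ i, t i ∉ m * b i
  tne : ∀ i, t i ≠ 0
  tcop : ∀ i, IsCoprime (Ideal.span {t i}) m
  ray : ∀ R : ι → Set (𝓞 F), (∀ i, IsRep m (b i) (t i) (R i)) →
    ∃ e : (Σ i, R i) → Ideal (𝓞 F), Function.Injective e ∧
      (∀ x, IsCoprime (e x) m ∧ e x * b x.1 = Ideal.span {(x.2 : 𝓞 F)}) ∧
      ∀ I, IsCoprime I m → ∃ x, e x = I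

/-- The coefficient of the class of `t` modulo `m b`. -/
noncomputable def kk [HC] {F : Type*} [Field F] [NumberField F] [Algebra K F]
    (b : Ideal (𝓞 F)) (t : 𝓞 F) : ℂ :=
  psbC F (Ideal.span {t}) / ((starRingEnd ℂ) (Nm (t : F)) * psbC F b)

end Pool.Agent.Lib.MP_1a91b9_nuX.RG
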