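import Pool.Agent.Lib.MP_1a91b9_nuX.RG.Act
import Pool.Agent.Lib.MP_1a91b9_nuX.DB.Uni
import Pool.Agent.Lib.MP_1a91b9_nuX.DB.Tors
import Pool.Agent.Lib.MP_1a91b9_nuX.DB.Tor2
import Pool.Agent.Lib.MP_1a91b9_nuX.DB.Ext
import Pool.Agent.Lib.MP_1a91b9_nuX.AN.ESum

/-!
# The automorphisms of `ℂ` over `K`: the torsion of the curve and the Hecke character

Proof. `ℂ` is a `K`-algebra by `embK`; `τ` is a `K`-algebra automorphism `t` of `ℂ` (`Rq.fx_K`).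
(1) `DB.exists_uni`: `U : ℂ →+ Pt ℂ` with `xc (U z) = X z`, `yc (U z) = Y z / 2` off the lattice,
`U (embK a * z) = sm ℂ a (U z)`, kernel the lattice. For `T₀ := U (1 / M)` the relation `RlM τ M χ`
gives `pm t T₀ = sm ℂ χ T₀`, and `Ord M T₀`.
(2) `T₀` is defined over a Galois number field `L` over `K`: `T₀ = pm j T`, and `t ∘ j = j ∘ σ`.
By `GalPs`: `ga σ T = sm L c T` with `ps (span {c}) = c`, hence `M ∣ χ - c`.
(3) `Fx.congr`: `ps (span {χ}) = χ`.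
-/

set_option autoImplicit false

namespace Pool.Agent.Lib.MP_1a91b9_nuX.RG

variable [Pool.Agent.Lib.MP_1a91b9_nuT.CD]

open NumberField Pool.Agent.Lib.MP_1a91b9_nuT Pool.Agent.Lib.MP_1a91b9_nuX.DB
open Pool.Agent.Lib.MP_1a91b9_nuT.Rq (Fix)

/-- The action of Galois on a torsion point `T` of annihilator `(M)`, over a Galois extension of `K`. -/
def GalPs [HC] (M : ℕ) : Prop :=
  ∀ (L : Type) [Field L] [NumberField L] [Algebra K L] [IsGalois K L] [DecidableEq L] (T : Pt L),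
    MP_1a91b9_nuX.DB.Ord (M : 𝓞 K) T → ∀ σ : Gal(L/K), ∃ c : 𝓞 K, IsCoprime c (M : 𝓞 K) ∧
      ga σ T = sm L c T ∧ ps (Ideal.span {c}) = c

/-- the automorphism as an automorphism of the `K`-algebra `ℂ` -/
private theorem Dl_alg {τ : ℂ ≃+* ℂ} (hτ : Fix τ) : ∃ t : ℂ ≃ₐ[K] ℂ, ∀ z, t z = τ z :=
  ⟨AlgEquiv.ofRingEquiv (f := τ) (fun x => Rq.fx_K hτ x), fun _ => rfl⟩

private theorem Dl_lattice {M : ℕ} (hM : 0 < M) (c : 𝓞 K) :
    embK (c : K) * (1 / M) ∈ PP.lattice ↔ (M : 𝓞 K) ∣ c := by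
  have hM0 : (M : ℂ) ≠ 0 := by exact_mod_cast hM.ne'
  have hMe : embK (((M : 𝓞 K) : 𝓞 K) : K) = M := by
    have h1 : (((M : 𝓞 K) : 𝓞 K) : K) = (M : K) := map_natCast (algebraMap (𝓞 K) K) M
    rw [h1, map_natCast]
  rw [S3.mem_PP_iff]
  constructor
  · rintro ⟨a, ha⟩
    refine ⟨a, ?_⟩
    apply RingOfIntegers.ext
    apply embK.toRingHom.injective
    change embK (c : K) = embK (algebraMap (𝓞 K) K ((M : 𝓞 K) * a))
    rw [map_mul, map_mul]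
    change embK (c : K) = embK (((M : 𝓞 K) : 𝓞 K) : K) * embK (a : K)
    rw [hMe, ha]
    field_simp
  · rintro ⟨a, rfl⟩
    refine ⟨a, ?_⟩
    have h1 : embK ((((M : 𝓞 K) * a : 𝓞 K)) : K) = M * embK (a : K) := by
      change embK (algebraMap (𝓞 K) K ((M : 𝓞 K) * a)) = _
      rw [map_mul, map_mul]
      change embK (((M : 𝓞 K) : 𝓞 K) : K) * embK (a : K) = _
      rw [hMe]
    rw [h1]
    field_simp

/-- the action of `τ` on the uniformisation of the curve -/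
private theorem Dl_act0 [DecidableEq ℂ] {τ : ℂ ≃+* ℂ} {t : ℂ ≃ₐ[K] ℂ} (ht : ∀ z, t z = τ z)
    (u0 : ℂ →+ Pt ℂ) (h0 : ∀ z, u0 z = 0 ↔ z ∈ PP.lattice)
    (h1 : ∀ z, z ∉ PP.lattice → xc (u0 z) = S3.X z ∧ yc (u0 z) = S3.Y z / 2) {z w : ℂ}
    (h : Rq.Rel τ z w) : pm (t : ℂ →ₐ[K] ℂ) (u0 z) = u0 w := by
  rcases h with ⟨hz, hw⟩ | ⟨hz, hw, hX, hY⟩
  · rw [(h0 z).2 hz, (h0 w).2 hw, map_zero]
  · have hz0 : u0 z ≠ 0 := fun e => hz ((h0 z).1 e)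
    have hw0 : u0 w ≠ 0 := fun e => hw ((h0 w).1 e)
    have hp0 : pm (t : ℂ →ₐ[K] ℂ) (u0 z) ≠ 0 := by
      intro e
      apply hz0
      apply pm_inj (t : ℂ →ₐ[K] ℂ)
      rw [e, map_zero]
    refine pt_ext hp0 hw0 ?_ ?_
    · rw [xc_pm, (h1 z hz).1, (h1 w hw).1, hX]
      exact ht _
    · rw [yc_pm, (h1 z hz).2, (h1 w hw).2, hY]
      have e : (t : ℂ →ₐ[K] ℂ) (S3.Y z / 2) = τ (S3.Y z / 2) := ht _
      rw [e, map_div₀, map_ofNat]

private theorem Dl_point [DecidableEq ℂ] {M : ℕ} (hM : 0 < M) {τ : ℂ ≃+* ℂ}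
    {t : ℂ ≃ₐ[K] ℂ} (ht : ∀ z, t z = τ z) {χ : 𝓞 K} (hχ : RlM τ M χ) :
    ∃ T₀ : Pt ℂ, MP_1a91b9_nuX.DB.Ord (M : 𝓞 K) T₀ ∧
      pm (t : ℂ →ₐ[K] ℂ) T₀ = sm ℂ χ T₀ := by
  obtain ⟨u0, -, h0, h1, h5⟩ := exists_uni
  refine ⟨u0 (1 / M), ?_, ?_⟩
  · intro c
    rw [← h5, h0]
    exact Dl_lattice hM c
  · have h6 := hχ 1
    have h7 : embK (((1 : 𝓞 K)) : K) = 1 :=
      (congrArg embK (map_one (algebraMap (𝓞 K) K))).trans (map_one embK)
    rw [h7, mul_one] at h6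
    rw [Dl_act0 ht u0 h0 h1 h6, ← h5]
    apply congrArg
    rw [mul_one_div]

section

/-- a torsion point of `ℂ` is defined over a Galois extension of `K` -/
private theorem Dl_field [DecidableEq ℂ] {β : 𝓞 K} (hβ : β ≠ 0) {T₀ : Pt ℂ}
    (hT : sm ℂ β T₀ = 0) :
    ∃ L : IntermediateField K ℂ, FiniteDimensional K L ∧ IsGalois K L ∧ xc T₀ ∈ L ∧
      yc T₀ ∈ L := by
  classical
  obtain ⟨R0, hR0⟩ := alg_pt hβ hT
  have hint : ∀ z : algebraicClosure K ℂ, IsIntegral K (z : ℂ) := fun z =>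
    (mem_algebraicClosure_iff.1 z.2).isIntegral
  have hxi : IsIntegral K (xc T₀) := by
    rw [← hR0, xc_pm]
    exact hint _
  have hyi : IsIntegral K (yc T₀) := by
    rw [← hR0, yc_pm]
    exact hint _
  obtain ⟨p, hp⟩ : ∃ p : Polynomial K, p = minpoly K (xc T₀) * minpoly K (yc T₀) := ⟨_, rfl⟩
  have hp0 : p ≠ 0 := by
    rw [hp]
    exact mul_ne_zero (minpoly.ne_zero hxi) (minpoly.ne_zero hyi)
  have hs : (p.map (algebraMap K ℂ)).Splits := IsAlgClosed.splits _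
  have hsp : p.IsSplittingField K (IntermediateField.adjoin K (p.rootSet ℂ)) :=
    IntermediateField.adjoin_rootSet_isSplittingField hs
  have hfin : FiniteDimensional K (IntermediateField.adjoin K (p.rootSet ℂ)) :=
    Polynomial.IsSplittingField.finiteDimensional _ p
  have hnorm : Normal K (IntermediateField.adjoin K (p.rootSet ℂ)) :=
    Normal.of_isSplittingField p
  refine ⟨IntermediateField.adjoin K (p.rootSet ℂ), hfin, ⟨⟩, ?_, ?_⟩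
  · apply IntermediateField.subset_adjoin
    rw [Polynomial.mem_rootSet]
    refine ⟨hp0, ?_⟩
    rw [hp, map_mul, minpoly.aeval, zero_mul]
  · apply IntermediateField.subset_adjoin
    rw [Polynomial.mem_rootSet]
    refine ⟨hp0, ?_⟩
    rw [hp, map_mul, minpoly.aeval, mul_zero]

private theorem Dl_down [DecidableEq ℂ] (L : IntermediateField K ℂ) [DecidableEq L] {T₀ : Pt ℂ}
    (hx : xc T₀ ∈ L) (hy : yc T₀ ∈ L) : ∃ T : Pt L, pm L.val T = T₀ := by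
  rcases cases_pt T₀ with rfl | ⟨x, y, h, rfl⟩
  · exact ⟨0, map_zero _⟩
  · rw [xc_mk] at hx
    rw [yc_mk] at hy
    have h0 : (⟨y, hy⟩ : L) ^ 2 = (⟨x, hx⟩ : L) ^ 3 + cA L * (⟨x, hx⟩ : L) + cB L := Subtype.ext (by
      push_cast
      exact h)
    refine ⟨mkPt (⟨x, hx⟩ : L) ⟨y, hy⟩ h0, ?_⟩
    obtain ⟨h', e'⟩ := pm_mk L.val (⟨x, hx⟩ : L) ⟨y, hy⟩ h0
    rw [e', mk_inj]
    exact ⟨rfl, rfl⟩

private theorem Dl_ga [DecidableEq ℂ] (L : IntermediateField K ℂ) [DecidableEq L] [Normal K L]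
    (t : ℂ ≃ₐ[K] ℂ) (T : Pt L) :
    pm L.val (ga (t.restrictNormal L) T) = pm (t : ℂ →ₐ[K] ℂ) (pm L.val T) := by
  have e : L.val.comp (((t.restrictNormal L : L ≃ₐ[K] L) : L →ₐ[K] L).restrictScalars K) =
      (t : ℂ →ₐ[K] ℂ).comp L.val := by
    ext x
    exact t.restrictNormal_commutes L x
  unfold ga
  rw [WeierstrassCurve.Affine.Point.map_map, WeierstrassCurve.Affine.Point.map_map, e]

end

theorem ps_act [HC] {M : ℕ} (hM : 0 < M) (hf : (HC.f : 𝓞 K) ∣ (M : 𝓞 K)) (hg : GalPs M)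
    {τ : ℂ ≃+* ℂ} (hτ : Fix τ) {χ : 𝓞 K} (hχ : RlM τ M χ) :
    ps (Ideal.span {χ}) = χ := by
  classical
  obtain ⟨t, ht⟩ := Dl_alg hτ
  obtain ⟨T₀, hord, hact⟩ := Dl_point hM ht hχ
  have hM0 : (M : 𝓞 K) ≠ 0 := by exact_mod_cast hM.ne'
  obtain ⟨L, hfin, hgal, hx, hy⟩ := Dl_field hM0 ((hord _).2 dvd_rfl)
  obtain ⟨T, hT⟩ := Dl_down L hx hy
  have hnf : NumberField L := NumberField.of_module_finite K L
  have hnorm : Normal K L := IsGalois.to_normal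
  have hordT : MP_1a91b9_nuX.DB.Ord (M : 𝓞 K) T := by
    rw [← Ord.map L.val, hT]
    exact hord
  obtain ⟨c, hc1, hc2, hc3⟩ := hg L T hordT (t.restrictNormal L)
  have h1 := Dl_ga L t T
  rw [hc2, pm_sm, hT, hact, hord.sm_eq_iff] at h1
  have h2 : HC.f ∣ χ - c := by
    refine hf.trans ?_
    rw [← dvd_neg, neg_sub]
    exact h1
  exact AN.Fx.congr (a := c) hc3 (hc1.of_isCoprime_of_dvd_right hf) h2

end Pool.Agent.Lib.MP_1a91b9_nuX.RG
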