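import Pool.Agent.Lib.MP_1a91b9_nuX.RG.Cls
import Pool.Agent.Lib.MP_1a91b9_nuX.RG.Un
import Pool.Agent.Lib.MP_1a91b9_nuX.RG.Va
import Pool.Agent.Lib.MP_1a91b9_nuX.RG.Dl
import Pool.Agent.Lib.MP_1a91b9_nuT.Rq.Va
import Pool.Agent.Lib.MP_1a91b9_nuG.Psi
import Pool.Agent.Lib.MP_1a91b9_nuT.S4.UnfoldL
import Pool.Agent.Lib.MP_1a91b9_nuT.S4.LComp
import Pool.Agent.Lib.MP_1a91b9_nuT.S4.TwoAdic
import Pool.Agent.Lib.MP_1a91b9_nuT.Rg.Vm
import Pool.Agent.Lib.MP_1a91b9_nuT.S7.Plug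

/-!
# `L(ψbar_F, 1)` is `Om ^ n * d * x` with `x ∈ K`

`L s := ∑ i, kk (b i) (t i) * N(b i) ^ s * A i s` for a complete system of classes `t i` modulo
`f b i` (RG/Cls), `A i` the entire function of the class (`Ell.co_entire`); `L = Lf (psbC F)` for
`2 < Re s` (RG/Un). An automorphism `τ` over `K` acts on the values by `χ₀` (RG/Act, RG/Va), and
`ps (span {χ₀}) = χ₀` (RG/Dl); so `τ` permutes the sum: `L 1 / (Om ^ n dt)` is fixed, hence in `K`.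
-/

set_option autoImplicit false

namespace Pool.Agent.Lib.MP_1a91b9_nuX.RG

variable [Pool.Agent.Lib.MP_1a91b9_nuT.CD]

open NumberField IsDedekindDomain Pool.Agent.Lib.MP_1a91b9_nt Pool.Agent.Lib.MP_1a91b9_nuT
  Pool.Agent.Lib.MP_1a91b9_nuT.S4
open Pool.Agent.Lib.MP_1a91b9_nuG (up)
open Pool.Agent.Lib.MP_1a91b9_nuX.AN (psbC psC)
open Pool.Agent.Lib.MP_1a91b9_nuT.Rq (dt Fix)

universe u

variable [HC] {F : Type u} [Field F] [NumberField F] [Algebra K F]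

private theorem Lv_norm_one (u : (𝓞 F)ˣ) (hu : u ∈ unV (Ideal.span {up HC.f F})) :
    Algebra.norm K ((u : 𝓞 F) : F) = 1 := by
  have h1 : algebraMap (𝓞 K) (𝓞 F) HC.f ∣ (u : 𝓞 F) - 1 := Ideal.mem_span_singleton.1 hu
  have h2 := S4.nK_congr (F := F) HC.f (u : 𝓞 F) 1 h1
  rw [S4.nK_one] at h2
  have h3 : IsUnit (S4.nK (u : 𝓞 F)) := u.isUnit.map (Algebra.intNorm (𝓞 K) (𝓞 F))
  obtain ⟨u', hu'⟩ := h3
  rw [← hu'] at h2
  have h4 := HC.hd.inj u' h2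
  have h5 : (S4.nK (u : 𝓞 F) : 𝓞 K) = 1 := by rw [← hu', h4, Units.val_one]
  rw [← S4.nK_coe, h5]
  exact map_one _

private theorem Lv_M : ∃ M : ℕ, 0 < M ∧ (HC.f : 𝓞 K) ∣ (M : 𝓞 K) ∧
    ((CD.bad : ℤ) : 𝓞 K) ∣ (M : 𝓞 K) := by
  have hf := AN.f_ne
  refine ⟨Ideal.absNorm (Ideal.span {(HC.f : 𝓞 K)}) * CD.bad.natAbs, ?_, ?_, ?_⟩
  · refine Nat.mul_pos ?_ ?_
    · rw [Nat.pos_iff_ne_zero, Ne, Ideal.absNorm_eq_zero_iff, Ideal.span_singleton_eq_bot]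
      exact hf
    · rw [Int.natAbs_pos]
      exact CD.bad_ne
  · rw [Nat.cast_mul]
    exact Dvd.dvd.mul_right (Ideal.mem_span_singleton.1 (Ideal.absNorm_mem _)) _
  · rw [Nat.cast_mul]
    refine Dvd.dvd.mul_left ?_ _
    have h1 : (CD.bad : ℤ) ∣ ((CD.bad.natAbs : ℕ) : ℤ) := Int.dvd_natAbs.2 (dvd_refl _)
    have h2 := map_dvd (Int.castRingHom (𝓞 K)) h1
    rw [eq_intCast, eq_intCast, Int.cast_natCast] at h2
    exact h2

theorem lval (hg : ∀ M : ℕ, 0 < M → (HC.f : 𝓞 K) ∣ (M : 𝓞 K) →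
      ((CD.bad : ℤ) : 𝓞 K) ∣ (M : 𝓞 K) → GalPs M)
    {m : ℕ} (σ : Fin (m + 1) → (F →ₐ[K] ℂ)) (hσ : Function.Bijective σ)
    (bb : Module.Basis (Fin (m + 1)) K F) :
    ∃ (L : ℂ → ℂ) (x : K), Differentiable ℂ L ∧
      (∀ s : ℂ, 2 < s.re → L s = Lf (psbC F) s) ∧
      L 1 = Om ^ (m + 1) * dt σ bb * embK x := by
  have hn : Module.finrank K F = m + 1 := nf_card σ hσ
  obtain ⟨q, hq, hq3, h2, h2n, hfq⟩ := Rg.exists_q HC.f AN.f_ne (Module.finrank K F) (by omega)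
  have h3q : Nat.Coprime 3 q := (Nat.coprime_primes Nat.prime_three hq).2 (Ne.symm hq3)
  have hinj := FaithfulSMul.algebraMap_injective (𝓞 K) (𝓞 F)
  have h30 : Ideal.span {up HC.f F} ≠ 0 := by
    rw [Ne, Ideal.zero_eq_bot, Ideal.span_singleton_eq_bot]
    intro h
    exact AN.f_ne (hinj (by rw [map_zero]; exact h))
  have h31 : Ideal.span {up HC.f F} ≠ 1 := AN.up_span_ne_top
  have h32 : IsCoprime (Ideal.span {up HC.f F}) (Ideal.span {(q : 𝓞 F)}) := by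
    rw [Ideal.isCoprime_span_singleton_iff]
    have h := hfq.map (algebraMap (𝓞 K) (𝓞 F))
    rwa [map_natCast] at h
  obtain ⟨r, hr3, hrf⟩ := HC.hd.big
  have h33 : Ideal.span {up HC.f F} ≤ Ideal.span {(r : 𝓞 F)} := by
    rw [Ideal.span_singleton_le_span_singleton]
    have h := map_dvd (algebraMap (𝓞 K) (𝓞 F)) hrf
    rwa [map_natCast] at h
  have hc0 : Ideal.span {(q : 𝓞 F)} ≠ 0 := by
    rw [Ne, Ideal.zero_eq_bot, Ideal.span_singleton_eq_bot]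
    exact_mod_cast hq.ne_zero
  have hu : ∀ v ∈ unV (Ideal.span {up HC.f F}), Algebra.norm K ((v : 𝓞 F) : F) = 1 :=
    fun v hv => Lv_norm_one v hv
  have htor : ∀ v ∈ unV (Ideal.span {up HC.f F}), ∀ k : ℕ, 0 < k → v ^ k = 1 → v = 1 :=
    fun v hv k hk hvk => un_tors _ r hr3 h33 v hv k hk hvk
  obtain ⟨ι, hι, b, t, hC, hbc⟩ := exists_csys (Ideal.span {up HC.f F}) (Ideal.span {(q : 𝓞 F)})
    h30 h31 hc0
  have hgood : ∀ t' : ι → 𝓞 F, CSys (Ideal.span {up HC.f F}) b t' → ∀ i, ∃ g : ℂ → ℂ,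
      Differentiable ℂ g ∧ (∀ X : Set F, IsRepsU (Ideal.span {up HC.f F})
        (cls (b i) (Ideal.span {up HC.f F}) (t' i)) X →
        ∀ s : ℂ, 2 < s.re → HasSum (fun z : X => term s (z : F)) (g s)) := fun t' hC' i =>
    Ell.co_entire hq 3 le_rfl h3q 2 h2 h2n σ hσ (b i) (Ideal.span {up HC.f F}) (hC'.ne i) h30 h32 hu
      htor (t' i) (hC'.mem i) (hC'.notMem i)
  have hNb : ∀ i, (Ideal.absNorm (b i) : ℂ) ≠ 0 := by
    intro i
    have := Ideal.absNorm_ne_zero_iff_mem_nonZeroDivisors.mpr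
      (mem_nonZeroDivisors_iff_ne_zero.mpr (hC.ne i))
    exact_mod_cast this
  have hsum : ∀ (t' : ι → 𝓞 F), CSys (Ideal.span {up HC.f F}) b t' → ∀ (A : ι → ℂ → ℂ),
      (∀ i, (∀ X : Set F, IsRepsU (Ideal.span {up HC.f F})
        (cls (b i) (Ideal.span {up HC.f F}) (t' i)) X →
        ∀ s : ℂ, 2 < s.re → HasSum (fun z : X => term s (z : F)) (A i s))) →
      ∀ s : ℂ, 2 < s.re → ∑ i, kk (b i) (t' i) * (Ideal.absNorm (b i) : ℂ) ^ s * A i s =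
        Lf (psbC F) s := by
    intro t' hC' A hAs s hs
    rw [← unfold_C hC' A (fun i R hR s hs => S7.hasSum_coe
      (hAs i _ (S7.repsU_of_isRep (hC'.notMem i) hR) s hs)) s hs]
    have hfin : {v : HeightOneSpectrum (𝓞 F) | Ideal.span {up HC.f F} ≤ v.asIdeal}.Finite := by
      refine (Ideal.finite_factors h30).subset fun v hv => ?_
      exact Ideal.dvd_iff_le.mpr hv
    rw [AN.Lf_indC _ hfin.toFinset (fun v => by rw [Set.Finite.mem_toFinset]; rfl) s hs]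
    have e : ∏ v ∈ hfin.toFinset, (1 - psbC F v.asIdeal *
        (Ideal.absNorm v.asIdeal : ℂ) ^ (-s)) = 1 := by
      refine Finset.prod_eq_one fun v hv => ?_
      rw [Set.Finite.mem_toFinset] at hv
      have hv' : Ideal.span {up HC.f F} ≤ v.asIdeal := hv
      rw [Ideal.span_singleton_le_iff_mem] at hv'
      rw [AN.psbC_bad v hv', zero_mul, sub_zero]
    rw [e, mul_one]
  have hdiff : ∀ (t' : ι → 𝓞 F) (A : ι → ℂ → ℂ), (∀ i, Differentiable ℂ (A i)) →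
      Differentiable ℂ fun s : ℂ => ∑ i, kk (b i) (t' i) *
        (Ideal.absNorm (b i) : ℂ) ^ s * A i s := by
    intro t' A hA
    refine Differentiable.fun_sum fun i _ => ?_
    refine Differentiable.mul ?_ (hA i)
    refine Differentiable.mul (differentiable_const _) ?_
    exact (differentiable_id).const_cpow (Or.inl (hNb i))
  choose A hA hAs using hgood t hC
  have hΩ : Om ^ (m + 1) * dt σ bb ≠ 0 := mul_ne_zero (pow_ne_zero _ Om_ne) (Rq.dt_ne σ hσ bb)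
  obtain ⟨M₁, hM0, hM1, hM2⟩ := Lv_M
  set S : ℂ := ∑ i, kk (b i) (t i) * (Ideal.absNorm (b i) : ℂ) ^ (1 : ℂ) * A i 1 with hS
  have hfix : ∀ τ : ℂ ≃+* ℂ, Fix τ →
      τ (S / (Om ^ (m + 1) * dt σ bb)) = S / (Om ^ (m + 1) * dt σ bb) := by
    intro τ hτ
    obtain ⟨χ₀, hcop, hRl, hact⟩ := exists_act2 hτ M₁ hM0
    have hactf : Hact τ HC.f χ₀ := by
      intro M hM
      obtain ⟨χ, h3, h4, h5⟩ := hact M hM
      exact ⟨χ, hM1.trans h3, h4, h5⟩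
    have hps := ps_act hM0 hM1 (hg M₁ hM0 hM1 hM2) hτ hRl
    have hcf : IsCoprime χ₀ HC.f := hcop.of_isCoprime_of_dvd_right hM1
    have hχ0 : χ₀ ≠ 0 := by
      rintro rfl
      rw [isCoprime_zero_left] at hcf
      exact AN.f_not_isUnit hcf
    have hX0 : algebraMap (𝓞 K) (𝓞 F) χ₀ ≠ 0 := fun h => hχ0 (hinj (by rw [map_zero]; exact h))
    have hX : IsCoprime (Ideal.span {algebraMap (𝓞 K) (𝓞 F) χ₀}) (Ideal.span {up HC.f F}) := by
      rw [Ideal.isCoprime_span_singleton_iff]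
      exact hcf.map (algebraMap (𝓞 K) (𝓞 F))
    have hC' := CSys.smul h31 hC hX hX0
    choose A' hA' hAs' using hgood (fun i => algebraMap (𝓞 K) (𝓞 F) χ₀ * t i) hC'
    have hval : ∀ i, τ (A i 1 / (Om ^ (m + 1) * dt σ bb)) = A' i 1 / (Om ^ (m + 1) * dt σ bb) :=
      fun i => val_act hτ hactf AN.f_ne σ hσ hu htor (b i) (hC.ne i) (t i) (hC.mem i) (hC.notMem i)
        (hC'.notMem i) (A i) (hA i) (hAs i) (A' i) (hA' i) (hAs' i) bb
    have hL : (fun s : ℂ => ∑ i, kk (b i) (t i) * (Ideal.absNorm (b i) : ℂ) ^ s * A i s) =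
        fun s : ℂ => ∑ i, kk (b i) (algebraMap (𝓞 K) (𝓞 F) χ₀ * t i) *
          (Ideal.absNorm (b i) : ℂ) ^ s * A' i s :=
      entire_eq (hdiff t A hA) (hdiff _ A' hA') fun s hs => by
        rw [hsum t hC A hAs s hs, hsum _ hC' A' hAs' s hs]
    have hS' : S = ∑ i, kk (b i) (algebraMap (𝓞 K) (𝓞 F) χ₀ * t i) *
          (Ideal.absNorm (b i) : ℂ) ^ (1 : ℂ) * A' i 1 := congrFun hL 1
    have hτkk : ∀ i, τ (kk (b i) (t i)) = kk (b i) (algebraMap (𝓞 K) (𝓞 F) χ₀ * t i) := by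
      intro i
      rw [kk_smul hχ0 hps]
      obtain ⟨y, hy⟩ := kk_mem (b i) (t i)
      rw [← hy, Rq.fx_K hτ]
    have e1 : S / (Om ^ (m + 1) * dt σ bb) = ∑ i, kk (b i) (t i) * (Ideal.absNorm (b i) : ℂ) *
        (A i 1 / (Om ^ (m + 1) * dt σ bb)) := by
      rw [hS, Finset.sum_div]
      refine Finset.sum_congr rfl fun i _ => ?_
      rw [Complex.cpow_one]
      ring
    have e2 : S / (Om ^ (m + 1) * dt σ bb) =
        ∑ i, kk (b i) (algebraMap (𝓞 K) (𝓞 F) χ₀ * t i) * (Ideal.absNorm (b i) : ℂ) *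
        (A' i 1 / (Om ^ (m + 1) * dt σ bb)) := by
      rw [hS', Finset.sum_div]
      refine Finset.sum_congr rfl fun i _ => ?_
      rw [Complex.cpow_one]
      ring
    calc τ (S / (Om ^ (m + 1) * dt σ bb)) =
        ∑ i, kk (b i) (algebraMap (𝓞 K) (𝓞 F) χ₀ * t i) * (Ideal.absNorm (b i) : ℂ) *
        (A' i 1 / (Om ^ (m + 1) * dt σ bb)) := by
          rw [e1, map_sum]
          refine Finset.sum_congr rfl fun i _ => ?_
          rw [map_mul, map_mul, hval i, hτkk i, map_natCast]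
      _ = _ := e2.symm
  obtain ⟨x, hx⟩ := Rg.mem_K hfix
  refine ⟨fun s : ℂ => ∑ i, kk (b i) (t i) * (Ideal.absNorm (b i) : ℂ) ^ s * A i s, x,
    hdiff t A hA, hsum t hC A hAs, ?_⟩
  show S = Om ^ (m + 1) * dt σ bb * embK x
  rw [hx, mul_div_cancel₀ _ hΩ]

end Pool.Agent.Lib.MP_1a91b9_nuX.RG
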