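import Pool.Agent.Lib.MP_1a91b9_nuX.RG.De

/-!
# The automorphisms over `K` and the sum of a frame

PROOF (complete; helper15): as `sum_fixed` in MP_1a91b9_nuT/Rg/Su.lean (copy the file, `κ = Om`), with `Hact` in place of `Kap.act`: `χ ≡ χ₀` modulo `f` and `de_chi2` (RG/De) in place of `de_chi`:
`hdel`: `del (χ₀ t) (zf (π x)) = del (χ₀ t) (χ (zf x) + μ) = del (χ₀ t) (χ (zf x)) = del t (zf x)` by `h2'` and `de_chi2`.
-/

set_option autoImplicit false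

namespace Pool.Agent.Lib.MP_1a91b9_nuX.RG

variable [Pool.Agent.Lib.MP_1a91b9_nuT.CD]

open NumberField Pool.Agent.Lib.MP_1a91b9_nuT Pool.Agent.Lib.MP_1a91b9_nuT.Rg
  Pool.Agent.Lib.MP_1a91b9_nuG
open Pool.Agent.Lib.MP_1a91b9_nuT.Rq (Fix ix_perm ixC_eq de_fix)

universe u

variable {F : Type u} [Field F] [NumberField F] [Algebra K F]

private theorem Su_ev {τ : ℂ ≃+* ℂ} (D c M : ℕ) (hD : 0 < D) (hc : 0 < c) (hM : 0 < M)
    (χ : 𝓞 K)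
    (hact : ∀ a : 𝓞 K, τ (E1 (embK (a : K) / ((M * (c * D) : ℕ) : ℂ)) / Om) =
      E1 (embK (χ : K) * embK (a : K) / ((M * (c * D) : ℕ) : ℂ)) / Om)
    (p q : Fin (c * D) × Fin (c * D)) (a : 𝓞 K)
    (h : ixK D c q = (χ : K) * ixK D c p + (c : K) * (a : K)) :
    E1 (ixC D c q / c) / Om = τ (E1 (ixC D c p / c) / Om) := by
  have hc0 : (c : ℂ) ≠ 0 := by exact_mod_cast hc.ne'
  have hD0 : (D : ℂ) ≠ 0 := by exact_mod_cast hD.ne'
  have hM0 : (M : ℂ) ≠ 0 := by exact_mod_cast hM.ne'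
  obtain ⟨y, hy⟩ : ∃ y : 𝓞 K, y = ((p.1 : ℕ) : 𝓞 K) + ((p.2 : ℕ) : 𝓞 K) * omO := ⟨_, rfl⟩
  have hyK : (y : K) = ((p.1 : ℕ) : K) + ((p.2 : ℕ) : K) * om := by
    rw [hy]
    simp only [map_add, map_mul, map_natCast]
  have hyC : embK (y : K) = ((p.1 : ℕ) : ℂ) + ((p.2 : ℕ) : ℂ) * zt := by
    rw [hyK]
    simp only [map_add, map_mul, map_natCast, embK_om]
  have hMy : embK ((((M : 𝓞 K) * y : 𝓞 K)) : K) = M * embK (y : K) := by
    rw [Rq.ix_mul, Rq.ix_nat, map_mul, map_natCast]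
  have h1 : ixC D c p / c = embK (((M : 𝓞 K) * y : 𝓞 K) : K) / ((M * (c * D) : ℕ) : ℂ) := by
    rw [hMy, hyC, ixC]
    push_cast
    field_simp
  have h2 : ixC D c q / c = embK (χ : K) * embK (((M : 𝓞 K) * y : 𝓞 K) : K) /
      ((M * (c * D) : ℕ) : ℂ) + embK (a : K) := by
    rw [Rq.ixC_eq, h]
    simp only [map_add, map_mul, map_natCast]
    rw [← Rq.ixC_eq]
    have h3 : ixC D c p = embK (y : K) / D := by rw [hyC, ixC]
    rw [h3]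
    push_cast
    field_simp
  rw [h1, h2, hact, E1_period]

theorem sum_act {m : ℕ} {τ : ℂ ≃+* ℂ} (hτ : Fix τ) {f χ₀ : 𝓞 K} (hact : Hact τ f χ₀)
    (hf : up f F ≠ 0) (𝔟 : Ideal (𝓞 F)) (hb : 𝔟 ≠ ⊥)
    (t : 𝓞 F) (ht : t ∈ 𝔟) (β' β : 𝓞 F) (hβ' : β' ≠ 0) (hβ : β ≠ 0) (b : 𝓞 K)
    (w : Fin (m + 1) → F) (D c : ℕ) (hD : 0 < D) (hc : 0 < c)
    (h2' : ∀ μ : F, (∀ i, ∃ a : 𝓞 K, Algebra.trace K F (w i * μ) = (c : K) * a) →
      ∀ z, del 𝔟 (Ideal.span {up f F}) (algebraMap (𝓞 K) (𝓞 F) χ₀ * t) β' β b (z + μ) =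
        del 𝔟 (Ideal.span {up f F}) (algebraMap (𝓞 K) (𝓞 F) χ₀ * t) β' β b z)
    (zz : (Fin (m + 1) → K) → F) (hzz : ∀ a i, Algebra.trace K F (w i * zz a) = a i) :
    τ (∑ x : Fin (m + 1) → Fin (c * D) × Fin (c * D),
        del 𝔟 (Ideal.span {up f F}) t β' β b (zz fun i => ixK D c (x i)) *
          ∏ i, (c : ℂ)⁻¹ * (E1 (ixC D c (x i) / c) / Om)) =
      ∑ x : Fin (m + 1) → Fin (c * D) × Fin (c * D),
        del 𝔟 (Ideal.span {up f F}) (algebraMap (𝓞 K) (𝓞 F) χ₀ * t) β' β b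
            (zz fun i => ixK D c (x i)) *
          ∏ i, (c : ℂ)⁻¹ * (E1 (ixC D c (x i) / c) / Om) := by
  classical
  have hcD : 0 < c * D := Nat.mul_pos hc hD
  obtain ⟨zf, hzf⟩ : ∃ zf : (Fin (m + 1) → Fin (c * D) × Fin (c * D)) → F,
    zf = fun x => zz fun i => ixK D c (x i) := ⟨_, rfl⟩
  obtain ⟨M₀, hM0, hM3, hMZ⟩ := de_den 𝔟 hb (up f F) β β' hf hβ hβ' (Finset.univ.image zf)
  have hMpos : 0 < M₀ * (c * D) := Nat.mul_pos hM0 hcD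
  obtain ⟨χ, h3, hcop, hactχ⟩ := hact (M₀ * (c * D)) hMpos
  have hcop' : IsCoprime χ ((M₀ : 𝓞 K) * ((c * D : ℕ) : 𝓞 K)) := by
    have e : ((M₀ * (c * D) : ℕ) : 𝓞 K) = (M₀ : 𝓞 K) * ((c * D : ℕ) : 𝓞 K) := by
      push_cast
      ring
    rw [← e]
    exact hcop
  have hcopM : IsCoprime χ (M₀ : 𝓞 K) := IsCoprime.of_mul_right_left hcop'
  have hcopN : IsCoprime χ ((c * D : ℕ) : 𝓞 K) := IsCoprime.of_mul_right_right hcop'
  have h3' : up f F ∣ algebraMap (𝓞 K) (𝓞 F) χ - algebraMap (𝓞 K) (𝓞 F) χ₀ := by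
    obtain ⟨d, hd⟩ := h3
    refine ⟨algebraMap (𝓞 K) (𝓞 F) d, ?_⟩
    have h1 := congrArg (algebraMap (𝓞 K) (𝓞 F)) hd
    rw [map_sub, map_mul] at h1
    exact h1
  obtain ⟨π, hπ⟩ := ix_perm D c hD hc χ hcopN
  have hdel : ∀ x : Fin (m + 1) → Fin (c * D) × Fin (c * D),
      del 𝔟 (Ideal.span {up f F}) (algebraMap (𝓞 K) (𝓞 F) χ₀ * t) β' β b
          (zf fun i => π (x i)) =
        del 𝔟 (Ideal.span {up f F}) t β' β b (zf x) := by
    intro x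
    obtain ⟨μ, hμ⟩ : ∃ μ : F, μ = zf (fun i => π (x i)) - algebraMap K F (χ : K) * zf x := ⟨_, rfl⟩
    have e1 : zf (fun i => π (x i)) = algebraMap K F (χ : K) * zf x + μ := by
      rw [hμ]; ring
    have e2 : ∀ i, ∃ a : 𝓞 K, Algebra.trace K F (w i * μ) = (c : K) * a := by
      intro i
      obtain ⟨a, ha⟩ := hπ (x i)
      refine ⟨a, ?_⟩
      have e3 : w i * μ = w i * zf (fun i => π (x i)) - (χ : K) • (w i * zf x) := by
        rw [hμ, Algebra.smul_def]; ring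
      rw [e3, map_sub, map_smul, hzf]
      simp only [hzz]
      rw [ha, smul_eq_mul]
      ring
    rw [e1, h2' μ e2]
    exact de_chi2 𝔟 (up f F) t β' β b ht M₀ hM3 χ χ₀ h3' hcopM (zf x)
      (hMZ (zf x) (Finset.mem_image_of_mem _ (Finset.mem_univ x)))
  have hev : ∀ p : Fin (c * D) × Fin (c * D),
      E1 (ixC D c (π p) / c) / Om = τ (E1 (ixC D c p / c) / Om) := by
    intro p
    obtain ⟨a, ha⟩ := hπ p
    exact Su_ev D c M₀ hD hc hM0 χ hactχ p (π p) a ha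
  rw [map_sum]
  have hre := (Equiv.piCongrRight (fun _ : Fin (m + 1) => π)).sum_comp
    (fun x : Fin (m + 1) → Fin (c * D) × Fin (c * D) =>
      del 𝔟 (Ideal.span {up f F}) (algebraMap (𝓞 K) (𝓞 F) χ₀ * t) β' β b
          (zz fun i => ixK D c (x i)) *
          ∏ i, (c : ℂ)⁻¹ * (E1 (ixC D c (x i) / c) / Om))
  rw [← hre]
  refine Finset.sum_congr rfl fun x _ => ?_
  rw [map_mul, map_prod, de_fix]
  congr 1
  · have h4 := (hdel x).symm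
    rw [hzf] at h4
    exact h4
  · refine Finset.prod_congr rfl fun i _ => ?_
    rw [map_mul, map_inv₀, map_natCast]
    congr 1
    exact (hev (x i)).symm

end Pool.Agent.Lib.MP_1a91b9_nuX.RG
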